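import Pool.Agent.Helper73.Dil.Rat

open Topology Set Filter MeasureTheory Metric

namespace Pool.Agent.Helper71.Dil

open Pool.Agent.Helper73.Dil Pool.Agent.Helper73.Dil.DilationSurface

universe u

section
variable {X : Type u} [TopologicalSpace X]

theorem cone_unique (e : OpenPartialHomeomorph X ℂ) {x : X} (hx : x ∈ e.source) {F : X → ℂ}
    {a a' : ℝ} {b b' : ℂ} (h : ∀ᶠ y in 𝓝 x, (a * e y + b) ^ 2 = F y)
    (h' : ∀ᶠ y in 𝓝 x, (a' * e y + b') ^ 2 = F y) : |a| = |a'| := by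
  have h2 : Tendsto e.symm (𝓝 (e x)) (𝓝 x) := by
    have := e.symm.continuousAt (x := e x) (by simpa using e.map_source hx)
    have h3 := this.tendsto
    rwa [e.left_inv hx] at h3
  have h3 : ∀ᶠ z in 𝓝 (e x), (a * z + b) ^ 2 = (a' * z + b') ^ 2 := by
    filter_upwards [h2.eventually (h.and h'), e.open_target.mem_nhds (e.map_source hx)]
      with z hz hz'
    have h4 := hz.1
    rw [← hz.2, e.right_inv hz'] at h4
    exact h4
  obtain ⟨ε, hε, hb⟩ := Metric.eventually_nhds_iff.1 h3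
  have e0 := hb (y := e x) (by simpa using hε)
  have e1 := hb (y := e x + (ε / 2 : ℝ)) (by
    rw [dist_eq_norm, add_sub_cancel_left, Complex.norm_real, Real.norm_eq_abs,
      abs_of_pos (by positivity)]
    linarith)
  have e2 := hb (y := e x - (ε / 2 : ℝ)) (by
    rw [dist_eq_norm, sub_sub_cancel_left, norm_neg, Complex.norm_real, Real.norm_eq_abs,
      abs_of_pos (by positivity)]
    linarith)
  have e3 : ((a ^ 2 * ε ^ 2 : ℝ) : ℂ) = ((a' ^ 2 * ε ^ 2 : ℝ) : ℂ) := by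
    push_cast at e1 e2 ⊢
    linear_combination 2 * e1 + 2 * e2 - 4 * e0
  have e4 : a ^ 2 * ε ^ 2 = a' ^ 2 * ε ^ 2 := by exact_mod_cast e3
  have e5 : a ^ 2 = a' ^ 2 := mul_right_cancel₀ (by positivity) e4
  exact (sq_eq_sq_iff_abs_eq_abs a a').1 e5

/-- transition of the cone model -/
theorem cone_trans {e e' : OpenPartialHomeomorph X ℂ} {x : X} {F : X → ℂ} {a : ℝ} {b : ℂ}
    (ha : a ≠ 0) (h : ∀ᶠ y in 𝓝 x, (a * e y + b) ^ 2 = F y) {r : ℝ} (hr : DilAt e e' x r) :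
    ∃ (a' : ℝ) (b' : ℂ), a' ≠ 0 ∧ |a'| = |a| / r ∧ ∀ᶠ y in 𝓝 x, (a' * e' y + b') ^ 2 = F y := by
  obtain ⟨c, d, hc, hcr, hcd⟩ := hr
  have hc' : (c : ℂ) ≠ 0 := by exact_mod_cast hc
  refine ⟨a / c, b - a * d / c, div_ne_zero ha hc, by rw [abs_div, hcr], ?_⟩
  filter_upwards [h, hcd] with y hy hy'
  rw [← hy, hy']
  congr 1
  push_cast
  field_simp
  ring

/-- rescaled cone ball -/
theorem coneBall_rescale {D : DilationSurface X} {p : X} {k : ℕ} {ψ : OpenPartialHomeomorph X ℂ}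
    (h : D.IsConeBall p k ψ) {r : ℝ} (hr : 0 < r) (hr1 : r ≤ 1) :
    D.IsConeBall p k (rescale ψ 0 r hr) := by
  refine ⟨h.mem, h.one_le, ?_, ?_, ?_, ?_⟩
  · rw [rescale_source]; exact ⟨h.src, by simp [h.zero, hr]⟩
  · rw [rescale_apply, h.zero]; ring
  · apply rescale_target
    rw [h.tgt, B1]
    exact ball_subset_ball hr1
  · intro x hx hxp
    rw [rescale_source] at hx
    refine ⟨(h.model x hx.1 hxp).1, fun e he hxe => ?_⟩
    obtain ⟨a, b, ha, h1⟩ := (h.model x hx.1 hxp).2 e he hxe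
    refine ⟨Real.sqrt (r⁻¹ ^ k) * a, Real.sqrt (r⁻¹ ^ k) * b, ?_, ?_⟩
    · exact mul_ne_zero (Real.sqrt_ne_zero'.2 (by positivity)) ha
    · filter_upwards [h1] with y hy
      rw [rescale_apply]
      have h2 : ((Real.sqrt (r⁻¹ ^ k) : ℝ) : ℂ) ^ 2 = ((r⁻¹ : ℝ) : ℂ) ^ k := by
        rw [← Complex.ofReal_pow, Real.sq_sqrt (by positivity), Complex.ofReal_pow]
      have h3 : ((Real.sqrt (r⁻¹ ^ k) * a : ℝ) : ℂ) * e y + Real.sqrt (r⁻¹ ^ k) * b
          = (Real.sqrt (r⁻¹ ^ k) : ℂ) * (a * e y + b) := by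
        push_cast; ring
      rw [h3, mul_pow, h2, hy]
      ring

theorem rescale_model {ψ e : OpenPartialHomeomorph X ℂ} {k : ℕ} {x : X} (hx : x ∈ e.source)
    {r : ℝ} (hr : 0 < r)
    {a a' : ℝ} {b b' : ℂ} (ha : a ≠ 0) (h : ∀ᶠ y in 𝓝 x, (a * e y + b) ^ 2 = ψ y ^ k)
    (h' : ∀ᶠ y in 𝓝 x, (a' * e y + b') ^ 2 = (rescale ψ 0 r hr) y ^ k) :
    - Real.log |a'| = - Real.log |a| + k / 2 * Real.log r := by
  have h1 : ∀ᶠ y in 𝓝 x, (((Real.sqrt (r⁻¹ ^ k) * a : ℝ) : ℂ) * e y +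
      Real.sqrt (r⁻¹ ^ k) * b) ^ 2 = (rescale ψ 0 r hr) y ^ k := by
    filter_upwards [h] with y hy
    rw [rescale_apply]
    have h2 : ((Real.sqrt (r⁻¹ ^ k) : ℝ) : ℂ) ^ 2 = ((r⁻¹ : ℝ) : ℂ) ^ k := by
      rw [← Complex.ofReal_pow, Real.sq_sqrt (by positivity), Complex.ofReal_pow]
    have h3 : ((Real.sqrt (r⁻¹ ^ k) * a : ℝ) : ℂ) * e y + Real.sqrt (r⁻¹ ^ k) * b
        = (Real.sqrt (r⁻¹ ^ k) : ℂ) * (a * e y + b) := by
      push_cast; ring
    rw [h3, mul_pow, h2, hy]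
    ring
  have h4 := cone_unique e hx h' h1
  rw [h4, abs_mul, abs_of_nonneg (Real.sqrt_nonneg _), Real.log_mul
    (Real.sqrt_ne_zero'.2 (by positivity)) (abs_ne_zero.2 ha), Real.log_sqrt (by positivity),
    Real.log_pow, Real.log_inv]
  ring

open Classical in
/-- scale function of the cone balls -/
noncomputable def UC (ψ : X → OpenPartialHomeomorph X ℂ) (k : X → ℕ) (cst : X → ℝ)
    (cone : Set X) (e : OpenPartialHomeomorph X ℂ) (x : X) : ℝ :=
  if h : ∃ q : X × ℝ × ℂ, q.1 ∈ cone ∧ x ∈ (ψ q.1).source ∧ q.2.1 ≠ 0 ∧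
      ∀ᶠ y in 𝓝 x, (q.2.1 * e y + q.2.2) ^ 2 = ψ q.1 y ^ k q.1
  then - Real.log |h.choose.2.1| + cst h.choose.1 else 0

theorem UC_eq {ψ : X → OpenPartialHomeomorph X ℂ} {k : X → ℕ} {cst : X → ℝ}
    {cone : Set X} (hdis : cone.PairwiseDisjoint fun p => (ψ p).source)
    {e : OpenPartialHomeomorph X ℂ} {x : X} (hxe : x ∈ e.source) {p : X} (hp : p ∈ cone)
    (hx : x ∈ (ψ p).source) {a : ℝ} {b : ℂ} (ha : a ≠ 0)
    (h : ∀ᶠ y in 𝓝 x, (a * e y + b) ^ 2 = ψ p y ^ k p) :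
    UC ψ k cst cone e x = - Real.log |a| + cst p := by
  have hex : ∃ q : X × ℝ × ℂ, q.1 ∈ cone ∧ x ∈ (ψ q.1).source ∧ q.2.1 ≠ 0 ∧
      ∀ᶠ y in 𝓝 x, (q.2.1 * e y + q.2.2) ^ 2 = ψ q.1 y ^ k q.1 := ⟨(p, a, b), hp, hx, ha, h⟩
  rw [UC, dif_pos hex]
  obtain ⟨h1, h2, h3, h4⟩ := hex.choose_spec
  have h5 : hex.choose.1 = p := by
    by_contra hne
    exact Set.disjoint_left.1 (hdis h1 hp hne) h2 hx
  rw [h5] at h4 ⊢
  rw [cone_unique e hxe h4 h]

theorem dilAt_unique {e : OpenPartialHomeomorph X ℂ} {f : X → ℂ} {x : X} (hx : x ∈ e.source)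
    {r s : ℝ} (h : DilAt e f x r) (h' : DilAt e f x s) : r = s := by
  obtain ⟨a, b, ha, har, h⟩ := h
  obtain ⟨a', b', ha', har', h'⟩ := h'
  rw [← har, ← har', (dil_unique e hx h h').1]

theorem dilAt_pos {f f' : X → ℂ} {x : X} {r : ℝ} (h : DilAt f f' x r) : 0 < r := by
  obtain ⟨a, b, ha, har, -⟩ := h
  rw [← har]; exact abs_pos.2 ha

theorem tendsto_symm (e : OpenPartialHomeomorph X ℂ) {x : X} (hx : x ∈ e.source) :
    Tendsto e.symm (𝓝 (e x)) (𝓝 x) := by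
  have := e.symm.continuousAt (x := e x) (by simpa using e.map_source hx)
  have h3 := this.tendsto
  rwa [e.left_inv hx] at h3

theorem contDiffAt_of_eventually_const {e : OpenPartialHomeomorph X ℂ} {x : X}
    (hx : x ∈ e.source) {f : X → ℝ} {c : ℝ} (h : ∀ᶠ y in 𝓝 x, f y = c) :
    ContDiffAt ℝ (⊤ : ℕ∞) (f ∘ e.symm) (e x) := by
  have h1 : (f ∘ e.symm) =ᶠ[𝓝 (e x)] fun _ => c := (tendsto_symm e hx).eventually h
  exact contDiffAt_const.congr_of_eventuallyEq h1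

end

theorem sb_SCALE (hPU : SB_PU.{u}) : SB_SCALE.{u} := by
  classical
  intro X _ _ _ D
  rcases isEmpty_or_nonempty X with hX | hX
  · exact ⟨⟨fun _ _ => 0, fun _ _ _ _ x => hX.elim x, fun _ _ x => hX.elim x,
      fun x => hX.elim x⟩⟩
  have hne : Nonempty (OpenPartialHomeomorph X ℂ) := by
    obtain ⟨x⟩ := hX
    by_cases hx : x ∈ D.cone
    · obtain ⟨k, ψ, -⟩ := D.cone_model x hx
      exact ⟨ψ⟩
    · obtain ⟨e, -⟩ := D.cover x hx
      exact ⟨e⟩
  obtain ⟨U0, hU0, hU0d⟩ := D.cone_finite.t2_separation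
  have hcb0 : ∀ p ∈ D.cone, ∃ (k : ℕ) (ψ : OpenPartialHomeomorph X ℂ),
      D.IsConeBall p k ψ ∧ ψ.source ⊆ U0 p := fun p hp =>
    sb_CB X D p hp (U0 p) ((hU0 p).2.mem_nhds (hU0 p).1)
  choose! k ψ hcb hsub using hcb0
  have hdis : D.cone.PairwiseDisjoint fun p => (ψ p).source := fun p hp q hq hpq =>
    (hU0d hp hq hpq).mono (hsub p hp) (hsub q hq)
  set V : Set X := ⋃ p ∈ D.cone, (ψ p).source ∩ ψ p ⁻¹' ball 0 (1 / 2) with hV
  have hVo : IsOpen V := isOpen_biUnion fun p _ => (ψ p).isOpen_inter_preimage isOpen_ball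
  have hK : IsCompact Vᶜ := hVo.isClosed_compl.isCompact
  have hKc : Vᶜ ⊆ (D.cone)ᶜ := by
    intro x hx hxc
    apply hx
    exact mem_biUnion hxc ⟨(hcb x hxc).src, by simp [(hcb x hxc).zero]⟩
  obtain ⟨n, b, χ, hb, U, hUo, hKU, hU1⟩ := hPU X D Vᶜ hK hKc
  choose hball htest K' hK'c hK's hK'0 using hb
  have hr0 : ∀ p ∈ D.cone, ∃ r : ℝ, 0 < r ∧ r ≤ 1 ∧
      ∀ x ∈ (ψ p).source, ‖ψ p x‖ < r → ∀ i, χ i x = 0 := by
    intro p hp
    have hN : (⋃ i, K' i)ᶜ ∈ 𝓝 p := by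
      have h1 : IsCompact (⋃ i, K' i) := isCompact_iUnion fun i => hK'c i
      apply h1.isClosed.isOpen_compl.mem_nhds
      intro h2
      obtain ⟨i, hi⟩ := mem_iUnion.1 h2
      exact (hball i).1.1 p (hK's i hi) hp
    obtain ⟨r, hr, hb1, hb2⟩ := exists_small_ball (ψ p) (hcb p hp).src hN
    refine ⟨min r 1, lt_min hr one_pos, min_le_right _ _, fun x hx hxr i => ?_⟩
    apply hK'0
    have h3 : x ∈ (⋃ i, K' i)ᶜ := hb2 ⟨hx, by
      rw [mem_preimage, mem_ball, (hcb p hp).zero, dist_zero_right]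
      exact lt_of_lt_of_le hxr (min_le_left _ _)⟩
    intro h4
    exact h3 (mem_iUnion.2 ⟨i, h4⟩)
  choose! r hr hr1 hrχ using hr0
  set cst : X → ℝ := fun p => k p / 2 * Real.log (r p) with hcst
  -- outside `U` we are in a cone ball
  have hout : ∀ x, x ∉ U → ∃ p ∈ D.cone, x ∈ (ψ p).source := by
    intro x hx
    have h1 : x ∈ V := by
      by_contra h2
      exact hx (hKU h2)
    obtain ⟨p, hp, h3⟩ := mem_iUnion₂.1 h1
    exact ⟨p, hp, h3.1⟩
  have hsum : ∀ x ∈ U, 1 - ∑ i, (χ i x).re = 0 := by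
    intro x hx
    have := congrArg Complex.re (hU1 x hx)
    rw [Complex.re_sum, Complex.one_re] at this
    rw [this, sub_self]
  refine ⟨⟨fun e x => ∑ i, (χ i x).re * Real.log |rat (b i) e x| +
    (1 - ∑ i, (χ i x).re) * UC ψ k cst D.cone e x, ?_, ?_, ?_⟩⟩
  · intro e e' he he' x hxe hxe' s hs
    have hspos := dilAt_pos hs
    have h1 : ∀ i, (χ i x).re * Real.log |rat (b i) e' x| =
        (χ i x).re * Real.log |rat (b i) e x| + (χ i x).re * Real.log s := by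
      intro i
      by_cases hx : x ∈ K' i
      · have hxb := hK's i hx
        obtain ⟨h2, -, -, -, h3⟩ := sb_RAT X D (b i) e x (hball i).1 he hxb hxe
        obtain ⟨h2', -, -, -, h3'⟩ := sb_RAT X D (b i) e' x (hball i).1 he' hxb hxe'
        have h4 := dilAt_unique hxb h3' (dilAt_trans h3 hs)
        rw [h4, Real.log_mul (abs_ne_zero.2 h2) hspos.ne', mul_add]
      · rw [hK'0 i x hx]; simp
    have h2 : (1 - ∑ i, (χ i x).re) * UC ψ k cst D.cone e' x =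
        (1 - ∑ i, (χ i x).re) * UC ψ k cst D.cone e x + (1 - ∑ i, (χ i x).re) * Real.log s := by
      by_cases hx : x ∈ U
      · rw [hsum x hx]; simp
      · obtain ⟨p, hp, hxp⟩ := hout x hx
        have hne : x ≠ p := fun h => he.1 x hxe (h ▸ hp)
        obtain ⟨a, b', ha, hm⟩ := ((hcb p hp).model x hxp hne).2 e he hxe
        obtain ⟨a', b'', ha', haa, hm'⟩ := cone_trans ha hm hs
        rw [UC_eq hdis hxe hp hxp ha hm, UC_eq hdis hxe' hp hxp ha' hm', haa,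
          Real.log_div (abs_ne_zero.2 ha) hspos.ne']
        ring
    simp only [h1, Finset.sum_add_distrib, h2, ← Finset.sum_mul]
    ring
  · intro e he x hxe
    suffices h : ContDiffAt ℝ (⊤ : ℕ∞) ((fun y => ∑ i, (χ i y).re * Real.log |rat (b i) e y| +
        (1 - ∑ i, (χ i y).re) * UC ψ k cst D.cone e y) ∘ e.symm) (e x) by
      exact Complex.ofRealCLM.contDiff.contDiffAt.comp (e x) h
    have hre : ∀ i, ContDiffAt ℝ (⊤ : ℕ∞) ((fun y => (χ i y).re) ∘ e.symm) (e x) := fun i =>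
      Complex.reCLM.contDiff.contDiffAt.comp (e x) ((htest i).1 e he x hxe)
    have h1 : ∀ i, ContDiffAt ℝ (⊤ : ℕ∞)
        ((fun y => (χ i y).re * Real.log |rat (b i) e y|) ∘ e.symm) (e x) := by
      intro i
      by_cases hx : x ∈ K' i
      · have hxb := hK's i hx
        have h2 : ∀ᶠ y in 𝓝 x, Real.log |rat (b i) e y| = Real.log |rat (b i) e x| :=
          (rat_eventually (hball i).1 he hxb hxe).mono fun y hy => by rw [hy]
        exact (hre i).mul (contDiffAt_of_eventually_const hxe h2)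
      · apply contDiffAt_of_eventually_const (c := 0) hxe
        filter_upwards [(hK'c i).isClosed.isOpen_compl.mem_nhds hx] with y hy
        rw [hK'0 i y hy]; simp
    have h2 : ContDiffAt ℝ (⊤ : ℕ∞)
        ((fun y => (1 - ∑ i, (χ i y).re) * UC ψ k cst D.cone e y) ∘ e.symm) (e x) := by
      by_cases hx : x ∈ U
      · apply contDiffAt_of_eventually_const (c := 0) hxe
        filter_upwards [hUo.mem_nhds hx] with y hy
        rw [hsum y hy]; simp
      · obtain ⟨p, hp, hxp⟩ := hout x hx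
        have hne : x ≠ p := fun h => he.1 x hxe (h ▸ hp)
        obtain ⟨a, b', ha, hm⟩ := ((hcb p hp).model x hxp hne).2 e he hxe
        have h3 : ∀ᶠ y in 𝓝 x, UC ψ k cst D.cone e y = - Real.log |a| + cst p := by
          filter_upwards [hm.eventually_nhds, e.open_source.mem_nhds hxe,
            (ψ p).open_source.mem_nhds hxp] with y hy1 hy2 hy3
          exact UC_eq hdis hy2 hp hy3 ha hy1
        have h4 : ContDiffAt ℝ (⊤ : ℕ∞) ((fun y => 1 - ∑ i, (χ i y).re) ∘ e.symm) (e x) := by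
          apply contDiffAt_const.sub
          exact ContDiffAt.sum fun i _ => hre i
        exact h4.mul (contDiffAt_of_eventually_const hxe h3)
    have h3 : ContDiffAt ℝ (⊤ : ℕ∞)
        ((fun y => ∑ i, (χ i y).re * Real.log |rat (b i) e y|) ∘ e.symm) (e x) :=
      ContDiffAt.sum fun i _ => h1 i
    exact h3.add h2
  · intro p hp
    refine ⟨k p, rescale (ψ p) 0 (r p) (hr p hp), coneBall_rescale (hcb p hp) (hr p hp) (hr1 p hp),
      ?_⟩
    intro x hx hxp e he hxe a' b' ha' hm'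
    rw [rescale_source] at hx
    have hχ : ∀ i, χ i x = 0 := by
      apply hrχ p hp x hx.1
      simpa using hx.2
    obtain ⟨a, b'', ha, hm⟩ := ((hcb p hp).model x hx.1 hxp).2 e he hxe
    have h1 := rescale_model hxe (hr p hp) ha hm hm'
    rw [h1]
    simp only [hχ]
    rw [UC_eq hdis hxe hp hx.1 ha hm]
    simp [hcst]

end Pool.Agent.Helper71.Dil
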