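import Pool.Agent.Helper73.Dil.Pure

open Topology Set Filter MeasureTheory Metric

namespace Pool.Agent.Helper71.Dil

open Pool.Agent.Helper73.Dil

/-! ## The linear map `x + t y` -/

noncomputable def tcL (t : ℂ) : ℂ →L[ℝ] ℂ :=
  Complex.ofRealCLM.comp Complex.reCLM + t • (Complex.ofRealCLM.comp Complex.imCLM)

theorem tcL_apply (t z : ℂ) : tcL t z = tc t z := by
  simp [tcL, tc]

theorem tcL_coe (t : ℂ) : (fun z => tcL t z) = tc t := funext (tcL_apply t)

theorem tc_one (t : ℂ) : tc t 1 = 1 := by simp [tc]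

theorem tc_I (t : ℂ) : tc t Complex.I = t := by simp [tc]

theorem tc_sub (t z w : ℂ) : tc t (z - w) = tc t z - tc t w := by
  rw [← tcL_apply, ← tcL_apply, ← tcL_apply, map_sub]

/-- the inverse of `tc t` -/
noncomputable def tcInv (t w : ℂ) : ℂ := ⟨w.re - t.re * (w.im / t.im), w.im / t.im⟩

theorem tc_tcInv {t : ℂ} (ht : t ∈ UH) (w : ℂ) : tc t (tcInv t w) = w := by
  have h : t.im ≠ 0 := ne_of_gt ht
  apply Complex.ext
  · simp [tc, tcInv]
  · simp [tc, tcInv]
    field_simp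

theorem tcInv_tc {t : ℂ} (ht : t ∈ UH) (z : ℂ) : tcInv t (tc t z) = z := by
  have h : t.im ≠ 0 := ne_of_gt ht
  apply Complex.ext <;> simp [tc, tcInv] <;> field_simp
  ring

noncomputable def tcInvL (t : ℂ) : ℂ →L[ℝ] ℂ :=
  Complex.ofRealCLM.comp Complex.reCLM +
    ((Complex.I - (t.re : ℂ)) * ((t.im)⁻¹ : ℝ)) • (Complex.ofRealCLM.comp Complex.imCLM)

theorem tcInvL_apply (t w : ℂ) : tcInvL t w = tcInv t w := by
  apply Complex.ext
  · simp [tcInvL, tcInv]; ring
  · simp [tcInvL, tcInv]; ring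

theorem tc_ne_zero {t : ℂ} (ht : t ∈ UH) {z : ℂ} (hz : z ≠ 0) : tc t z ≠ 0 := by
  intro h
  apply hz
  rw [← tcInv_tc ht z, h]
  apply Complex.ext <;> simp [tcInv]

theorem tc_bound {t : ℂ} (ht : t ∈ UH) : ∃ C : ℝ, 0 < C ∧ ∀ z, ‖z‖ ≤ C * ‖tc t z‖ := by
  refine ⟨‖tcInvL t‖ + 1, by positivity, fun z => ?_⟩
  have h := (tcInvL t).le_opNorm (tc t z)
  rw [tcInvL_apply, tcInv_tc ht] at h
  nlinarith [norm_nonneg (tc t z)]

/-! ## Radial functions in the coordinate `w` -/

/-- `F(|w|²)/w` -/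
noncomputable def Phi (F : ℝ → ℝ) (w : ℂ) : ℂ := (F (Complex.normSq w) : ℂ) * w⁻¹

theorem hasFDerivAt_normSq (w : ℂ) :
    HasFDerivAt (fun w => Complex.normSq w)
      ((2 * w.re) • Complex.reCLM + (2 * w.im) • Complex.imCLM) w := by
  have h1 : HasFDerivAt (fun w : ℂ => w.re) Complex.reCLM w := Complex.reCLM.hasFDerivAt
  have h2 : HasFDerivAt (fun w : ℂ => w.im) Complex.imCLM w := Complex.imCLM.hasFDerivAt
  have h : HasFDerivAt (fun w : ℂ => w.re * w.re + w.im * w.im)
      (w.re • Complex.reCLM + w.re • Complex.reCLM +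
        (w.im • Complex.imCLM + w.im • Complex.imCLM)) w := (h1.mul h1).add (h2.mul h2)
  have e : (fun w => Complex.normSq w) = (fun w : ℂ => w.re * w.re + w.im * w.im) := by
    funext w; rw [Complex.normSq_apply]
  rw [e]
  refine h.congr_fderiv ?_
  ext v
  simp
  ring

theorem contDiff_normSq {n : WithTop ℕ∞} : ContDiff ℝ n (fun w : ℂ => Complex.normSq w) := by
  have e : (fun w => Complex.normSq w) = (fun w : ℂ => w.re * w.re + w.im * w.im) := by
    funext w; rw [Complex.normSq_apply]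
  rw [e]
  have h1 : ContDiff ℝ n (fun w : ℂ => w.re) := Complex.reCLM.contDiff
  have h2 : ContDiff ℝ n (fun w : ℂ => w.im) := Complex.imCLM.contDiff
  exact (h1.mul h1).add (h2.mul h2)

theorem Phi_hasFDerivAt {F : ℝ → ℝ} (hF : Differentiable ℝ F) {w : ℂ} (hw : w ≠ 0) :
    ∃ L : ℂ →L[ℝ] ℂ, HasFDerivAt (Phi F) L w ∧
      ∀ t : ℂ, L t - t * L 1 =
        ((deriv F (Complex.normSq w) : ℝ) : ℂ) * ((starRingEnd ℂ) t - t) := by
  have h1 : HasFDerivAt (fun w => F (Complex.normSq w))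
      ((deriv F (Complex.normSq w)) • ((2 * w.re) • Complex.reCLM + (2 * w.im) • Complex.imCLM)) w :=
    ((hF _).hasDerivAt).comp_hasFDerivAt w (hasFDerivAt_normSq w)
  have h2 : HasFDerivAt (fun w => (F (Complex.normSq w) : ℂ))
      (Complex.ofRealCLM.comp ((deriv F (Complex.normSq w)) •
        ((2 * w.re) • Complex.reCLM + (2 * w.im) • Complex.imCLM))) w :=
    Complex.ofRealCLM.hasFDerivAt.comp w h1
  have h3 : HasFDerivAt (fun w : ℂ => w⁻¹)
      ((ContinuousLinearMap.smulRight (1 : ℂ →L[ℂ] ℂ) (-(w ^ 2)⁻¹)).restrictScalars ℝ) w :=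
    ((hasDerivAt_inv hw).hasFDerivAt).restrictScalars ℝ
  have h4 := h2.mul h3
  refine ⟨_, h4, fun t => ?_⟩
  simp only [add_apply, smul_apply, smul_eq_mul,
    ContinuousLinearMap.comp_apply, ContinuousLinearMap.coe_restrictScalars',
    ContinuousLinearMap.smulRight_apply, one_apply_eq_self, Complex.reCLM_apply,
    Complex.imCLM_apply, Complex.ofRealCLM_apply, Complex.one_re, Complex.one_im]
  push_cast
  have key : 2 * ((w.re : ℂ) * t.re + w.im * t.im) - 2 * t * w.re =
      w * ((starRingEnd ℂ) t - t) := by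
    apply Complex.ext <;> simp <;> ring
  generalize ((deriv F (Complex.normSq w) : ℝ) : ℂ) = d
  field_simp
  linear_combination w * d * key

theorem Phi_dd {F : ℝ → ℝ} (hF : Differentiable ℝ F) {s0 : ℝ} (hs0 : 0 < s0)
    (h0 : ∀ s < s0, F s = 0) {t : ℂ} (ht : t ∈ UH) (z0 z : ℂ) :
    dy (fun z => Phi F (tc t (z - z0))) z - t * dx (fun z => Phi F (tc t (z - z0))) z =
      ((deriv F (Complex.normSq (tc t (z - z0))) : ℝ) : ℂ) * ((starRingEnd ℂ) t - t) := by
  by_cases hz : z = z0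
  · subst hz
    have h1 : ∀ᶠ y in 𝓝 z, (fun z' => Phi F (tc t (z' - z))) y = (fun _ => (0 : ℂ)) y := by
      have hc : Continuous fun y => Complex.normSq (tc t (y - z)) := by
        have : Continuous fun y => tcL t (y - z) := (tcL t).continuous.comp (by fun_prop)
        simp_rw [tcL_apply] at this
        exact Complex.continuous_normSq.comp this
      have : ∀ᶠ y in 𝓝 z, Complex.normSq (tc t (y - z)) < s0 := by
        apply hc.continuousAt.eventually_lt_const
        simp [tc, hs0]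
      filter_upwards [this] with y hy
      simp [Phi, h0 _ hy]
    have h2 : deriv F (Complex.normSq (tc t (z - z))) = 0 := by
      have : F =ᶠ[𝓝 (Complex.normSq (tc t (z - z)))] fun _ => 0 := by
        filter_upwards [gt_mem_nhds (show Complex.normSq (tc t (z - z)) < s0 by
          simp [tc, hs0])] with y hy using h0 _ hy
      rw [this.deriv_eq]; simp
    have h3 := Filter.EventuallyEq.fderiv_eq (𝕜 := ℝ) h1
    rw [h2, dy, dx, h3]
    simp
  · have hw : tc t (z - z0) ≠ 0 := tc_ne_zero ht (sub_ne_zero.2 hz)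
    obtain ⟨L, hL, hL'⟩ := Phi_hasFDerivAt hF hw
    have h1 : HasFDerivAt (fun z => tc t (z - z0)) (tcL t) z := by
      have : HasFDerivAt (fun z => tcL t (z - z0)) ((tcL t).comp (ContinuousLinearMap.id ℝ ℂ)) z :=
        (tcL t).hasFDerivAt.comp z ((hasFDerivAt_id z).sub_const z0)
      simp_rw [tcL_apply] at this
      exact this
    have h2 : HasFDerivAt (fun z => Phi F (tc t (z - z0))) (L.comp (tcL t)) z :=
      HasFDerivAt.comp (f := fun z => tc t (z - z0)) z hL h1
    rw [dy, dx, h2.fderiv]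
    simp only [ContinuousLinearMap.comp_apply, tcL_apply, tc_one, tc_I]
    exact hL' t

theorem Phi_contDiff {F : ℝ → ℝ} (hF : ContDiff ℝ (⊤ : ℕ∞) F) {s0 : ℝ} (hs0 : 0 < s0)
    (h0 : ∀ s < s0, F s = 0) : ContDiff ℝ (⊤ : ℕ∞) (Phi F) := by
  rw [contDiff_iff_contDiffAt]
  intro w
  by_cases hw : w = 0
  · subst hw
    have h1 : Phi F =ᶠ[𝓝 0] fun _ => 0 := by
      have : ∀ᶠ y in 𝓝 (0 : ℂ), Complex.normSq y < s0 := by
        apply Complex.continuous_normSq.continuousAt.eventually_lt_const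
        simp [hs0]
      filter_upwards [this] with y hy
      simp [Phi, h0 _ hy]
    exact contDiffAt_const.congr_of_eventuallyEq h1
  · have h1 : ContDiffAt ℝ (⊤ : ℕ∞) (fun w : ℂ => w⁻¹) w := contDiffAt_inv ℝ hw
    have h2 : ContDiff ℝ (⊤ : ℕ∞) (fun w : ℂ => (F (Complex.normSq w) : ℂ)) :=
      Complex.ofRealCLM.contDiff.comp (hF.comp contDiff_normSq)
    exact h2.contDiffAt.mul h1

/-! ## The cut off function -/

/-- smooth step from `0` (for `s ≤ 1/2`) to `1` (for `s ≥ 1`) -/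
noncomputable def chi (s : ℝ) : ℝ := Real.smoothTransition (2 * s - 1)

theorem chi_contDiff : ContDiff ℝ (⊤ : ℕ∞) chi :=
  Real.smoothTransition.contDiff.comp (by fun_prop)

theorem chi_zero {s : ℝ} (hs : s ≤ 1 / 2) : chi s = 0 :=
  Real.smoothTransition.zero_of_nonpos (by linarith)

theorem chi_one {s : ℝ} (hs : 1 ≤ s) : chi s = 1 :=
  Real.smoothTransition.one_of_one_le (by linarith)

theorem chi_mono : Monotone chi := fun a b h =>
  Real.smoothTransition.monotone (by linarith)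

noncomputable def dchi (s : ℝ) : ℝ := deriv chi s

theorem dchi_contDiff : ContDiff ℝ (⊤ : ℕ∞) dchi := by
  have : ContDiff ℝ ((⊤ : ℕ∞) + 1) chi := by
    have := chi_contDiff
    exact_mod_cast this
  exact ((contDiff_succ_iff_deriv).1 this).2.2

theorem dchi_nonneg (s : ℝ) : 0 ≤ dchi s := chi_mono.deriv_nonneg

theorem dchi_zero_left {s : ℝ} (hs : s < 1 / 2) : dchi s = 0 := by
  have : chi =ᶠ[𝓝 s] fun _ => 0 := by
    filter_upwards [gt_mem_nhds hs] with y hy using chi_zero (le_of_lt hy)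
  rw [dchi, this.deriv_eq]; simp

theorem dchi_zero_right {s : ℝ} (hs : 1 < s) : dchi s = 0 := by
  have : chi =ᶠ[𝓝 s] fun _ => 1 := by
    filter_upwards [lt_mem_nhds hs] with y hy using chi_one (le_of_lt hy)
  rw [dchi, this.deriv_eq]; simp

theorem dchi_pos : ∃ s, 0 < s ∧ 0 < dchi s := by
  by_contra h
  push Not at h
  have h1 : ∀ s, dchi s = 0 := by
    intro s
    rcases le_or_gt s 0 with hs | hs
    · exact dchi_zero_left (by linarith)
    · exact le_antisymm (h s hs) (dchi_nonneg s)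
  have h2 : chi 1 = chi 0 := is_const_of_deriv_eq_zero
    (chi_contDiff.differentiable (by simp)) h1 1 0
  rw [chi_one le_rfl, chi_zero (by norm_num)] at h2
  norm_num at h2

/-- the kernel -/
noncomputable def kk (t : ℂ) (ρ : ℝ) (z : ℂ) : ℝ :=
  (ρ ^ 2)⁻¹ * dchi (Complex.normSq (tc t z) / ρ ^ 2)

theorem tc_contDiff (t : ℂ) {n : WithTop ℕ∞} : ContDiff ℝ n (tc t) := by
  rw [← tcL_coe]
  exact (tcL t).contDiff

theorem kk_contDiff (t : ℂ) (ρ : ℝ) : ContDiff ℝ (⊤ : ℕ∞) (kk t ρ) := by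
  have h : ContDiff ℝ (⊤ : ℕ∞) (fun z => Complex.normSq (tc t z)) :=
    contDiff_normSq.comp (tc_contDiff t)
  exact contDiff_const.mul (dchi_contDiff.comp (h.div_const _))

theorem kk_nonneg (t : ℂ) (ρ : ℝ) (z : ℂ) : 0 ≤ kk t ρ z :=
  mul_nonneg (by positivity) (dchi_nonneg _)

theorem kk_zero {t : ℂ} {ρ : ℝ} (hρ : 0 < ρ) {z : ℂ} (h : ρ < ‖tc t z‖) : kk t ρ z = 0 := by
  rw [kk, dchi_zero_right, mul_zero]
  rw [Complex.normSq_eq_norm_sq, lt_div_iff₀ (by positivity), one_mul]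
  exact pow_lt_pow_left₀ h hρ.le two_ne_zero

theorem kk_zero' {t : ℂ} {C ρ : ℝ} (hC : ∀ z, ‖z‖ ≤ C * ‖tc t z‖) (hC0 : 0 < C) (hρ : 0 < ρ)
    {z : ℂ} (h : C * ρ < ‖z‖) : kk t ρ z = 0 := by
  apply kk_zero hρ
  have := hC z
  exact lt_of_mul_lt_mul_left (lt_of_lt_of_le h this) hC0.le

theorem kk_compact {t : ℂ} (ht : t ∈ UH) {ρ : ℝ} (hρ : 0 < ρ) : HasCompactSupport (kk t ρ) := by
  obtain ⟨C, hC0, hC⟩ := tc_bound ht
  apply HasCompactSupport.intro (isCompact_closedBall (0 : ℂ) (C * ρ))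
  intro z hz
  apply kk_zero' hC hC0 hρ
  simpa using hz

theorem kk_scale (t : ℂ) {ρ : ℝ} (hρ : 0 < ρ) (z : ℂ) :
    kk t ρ z = (ρ ^ 2)⁻¹ * kk t 1 ((ρ⁻¹ : ℝ) • z) := by
  have h : tc t ((ρ⁻¹ : ℝ) • z) = (ρ⁻¹ : ℝ) • tc t z := by
    rw [← tcL_apply, ← tcL_apply, map_smul]
  rw [kk, kk, h, Complex.real_smul, Complex.normSq_mul, Complex.normSq_ofReal]
  simp only [one_pow, inv_one, one_mul, div_one]
  congr 2
  field_simp

theorem kk_bound (t : ℂ) (ht : t ∈ UH) : ∃ M : ℝ, 0 ≤ M ∧ ∀ ρ > 0, ∀ z, kk t ρ z ≤ (ρ ^ 2)⁻¹ * M := by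
  have h1 := (kk_compact ht one_pos).isCompact_range (kk_contDiff t 1).continuous
  obtain ⟨M, hM⟩ := h1.bddAbove
  refine ⟨M, le_trans (kk_nonneg t 1 0) (hM ⟨0, rfl⟩), fun ρ hρ z => ?_⟩
  rw [kk_scale t hρ]
  exact mul_le_mul_of_nonneg_left (hM ⟨_, rfl⟩) (by positivity)

theorem kk_integral (t : ℂ) {ρ : ℝ} (hρ : 0 < ρ) : ∫ z, kk t ρ z = ∫ z, kk t 1 z := by
  have h : ∀ z, kk t ρ z = (ρ ^ 2)⁻¹ * kk t 1 ((ρ⁻¹ : ℝ) • z) := kk_scale t hρ
  simp_rw [h]
  rw [integral_const_mul, Measure.integral_comp_smul]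
  simp only [Complex.finrank_real_complex, smul_eq_mul]
  rw [abs_of_pos (by positivity)]
  field_simp

theorem kk_integral_pos {t : ℂ} (ht : t ∈ UH) : 0 < ∫ z, kk t 1 z := by
  obtain ⟨s, hs, hd⟩ := dchi_pos
  apply Continuous.integral_pos_of_hasCompactSupport_nonneg_nonzero (x := tcInv t (Real.sqrt s : ℝ))
  · exact (kk_contDiff t 1).continuous
  · exact kk_compact ht one_pos
  · intro z; exact kk_nonneg t 1 z
  · rw [kk, tc_tcInv ht, Complex.normSq_ofReal, Real.mul_self_sqrt hs.le]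
    simp [hd.ne']

theorem kk_neg (t : ℂ) (ρ : ℝ) (z : ℂ) : kk t ρ (-z) = kk t ρ z := by
  have : tc t (-z) = - tc t z := by rw [← tcL_apply, ← tcL_apply, map_neg]
  rw [kk, this, Complex.normSq_neg, ← kk]

theorem kk_sub_comm (t : ℂ) (ρ : ℝ) (z w : ℂ) : kk t ρ (z - w) = kk t ρ (w - z) := by
  rw [← kk_neg, neg_sub]

/-! ## The regularised function -/

noncomputable def Hr (c : ℂ → ℂ) (t : ℂ) (ρ : ℝ) (z : ℂ) : ℂ :=
  ∫ s in B1, c s * (kk t ρ (s - z) : ℂ)

theorem vol_B1 : volume B1 < ⊤ := measure_ball_lt_top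

theorem c_int {c : ℂ → ℂ} (hc : MemLp c 2 (volume.restrict B1)) :
    Integrable c (volume.restrict B1) := by
  have : IsFiniteMeasure (volume.restrict B1) := ⟨by simpa using vol_B1⟩
  exact hc.integrable (by norm_num)

theorem ck_int {c : ℂ → ℂ} (hc : MemLp c 2 (volume.restrict B1)) {k : ℂ → ℂ}
    (hk : Continuous k) (hk2 : HasCompactSupport k) :
    Integrable (fun s => c s * k s) (volume.restrict B1) := by
  obtain ⟨M, hM⟩ := hk.bounded_above_of_compact_support hk2
  exact (c_int hc).mul_bdd (c := M) hk.aestronglyMeasurable (Eventually.of_forall hM)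

theorem kc_int {t : ℂ} (ht : t ∈ UH) {c : ℂ → ℂ} (hc : MemLp c 2 (volume.restrict B1)) {ρ : ℝ}
    (hρ : 0 < ρ) (z : ℂ) :
    Integrable (fun s => c s * (kk t ρ (s - z) : ℂ)) (volume.restrict B1) := by
  apply ck_int hc
  · exact Complex.continuous_ofReal.comp ((kk_contDiff t ρ).continuous.comp (by fun_prop))
  · have h := kk_compact ht hρ
    have h2 : HasCompactSupport (fun s => kk t ρ (s - z)) := by
      have := h.comp_homeomorph (Homeomorph.subRight z)
      exact this
    exact h2.comp_left (g := fun x : ℝ => (x : ℂ)) (by simp)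

theorem Hr_indep {t : ℂ} (ht : t ∈ UH) {c : ℂ → ℂ} (hc : MemLp c 2 (volume.restrict B1))
    (hcl : WClosed c (fun z => t * c z)) {C : ℝ} (hC : ∀ z, ‖z‖ ≤ C * ‖tc t z‖) (hC0 : 0 < C)
    {ρ ρ' : ℝ} (hρ : 0 < ρ) (hρ' : 0 < ρ') {z0 : ℂ} (h : C * ρ < 1 - ‖z0‖) (h' : C * ρ' < 1 - ‖z0‖) :
    Hr c t ρ z0 = Hr c t ρ' z0 := by
  set F : ℝ → ℝ := fun s => chi (s / ρ ^ 2) - chi (s / ρ' ^ 2) with hFdef
  have hF : ContDiff ℝ (⊤ : ℕ∞) F :=
    (chi_contDiff.comp (contDiff_id.div_const _)).sub (chi_contDiff.comp (contDiff_id.div_const _))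
  have hFd : Differentiable ℝ F := hF.differentiable (by simp)
  have hderiv : ∀ s, deriv F s = (ρ ^ 2)⁻¹ * dchi (s / ρ ^ 2) - (ρ' ^ 2)⁻¹ * dchi (s / ρ' ^ 2) := by
    intro s
    have hchi : ∀ x, HasDerivAt chi (dchi x) x := fun x =>
      (chi_contDiff.differentiable (by simp) x).hasDerivAt
    have h1 : ∀ r : ℝ, HasDerivAt (fun s => chi (s / r)) (r⁻¹ * dchi (s / r)) s := by
      intro r
      have := (hchi (s / r)).comp s ((hasDerivAt_id s).div_const r)
      simpa [mul_comm, Function.comp_def] using this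
    exact ((h1 (ρ ^ 2)).sub (h1 (ρ' ^ 2))).deriv
  have hs0 : 0 < min (ρ ^ 2) (ρ' ^ 2) / 2 := by positivity
  have h0 : ∀ s < min (ρ ^ 2) (ρ' ^ 2) / 2, F s = 0 := by
    intro s hs
    have h1 : s < ρ ^ 2 / 2 := lt_of_lt_of_le hs (by gcongr; exact min_le_left _ _)
    have h2 : s < ρ' ^ 2 / 2 := lt_of_lt_of_le hs (by gcongr; exact min_le_right _ _)
    simp only [hFdef]
    rw [chi_zero, chi_zero, sub_zero]
    · rw [div_le_iff₀ (by positivity)]; linarith
    · rw [div_le_iff₀ (by positivity)]; linarith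
  set R : ℝ := max ρ ρ' with hR
  have hRpos : 0 < R := lt_max_of_lt_left hρ
  have hCR : C * R < 1 - ‖z0‖ := by
    rw [hR, mul_max_of_nonneg _ _ hC0.le]
    exact max_lt h h'
  have hout : ∀ z, C * R < ‖z - z0‖ → Phi F (tc t (z - z0)) = 0 := by
    intro z hz
    have h1 : R < ‖tc t (z - z0)‖ := lt_of_mul_lt_mul_left (lt_of_lt_of_le hz (hC _)) hC0.le
    have h2 : R ^ 2 ≤ Complex.normSq (tc t (z - z0)) := by
      rw [Complex.normSq_eq_norm_sq]
      exact pow_le_pow_left₀ hRpos.le h1.le 2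
    have h3 : ρ ^ 2 ≤ R ^ 2 := pow_le_pow_left₀ hρ.le (le_max_left _ _) 2
    have h4 : ρ' ^ 2 ≤ R ^ 2 := pow_le_pow_left₀ hρ'.le (le_max_right _ _) 2
    have h5 : F (Complex.normSq (tc t (z - z0))) = 0 := by
      simp only [hFdef]
      rw [chi_one, chi_one, sub_self]
      · rw [le_div_iff₀ (by positivity)]; linarith
      · rw [le_div_iff₀ (by positivity)]; linarith
    simp [Phi, h5]
  have hsub : (fun z => Phi F (tc t (z - z0))).support ⊆ closedBall z0 (C * R) := by
    intro z hz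
    by_contra hz2
    apply hz
    apply hout
    simpa [dist_eq_norm] using hz2
  have hts : tsupport (fun z => Phi F (tc t (z - z0))) ⊆ closedBall z0 (C * R) :=
    closure_minimal hsub isClosed_closedBall
  have htest : PTest (fun z => Phi F (tc t (z - z0))) := by
    refine ⟨?_, ?_, ?_⟩
    · exact (Phi_contDiff hF hs0 h0).comp ((tc_contDiff t).comp (by fun_prop))
    · exact (isCompact_closedBall z0 (C * R)).of_isClosed_subset (isClosed_tsupport _) hts
    · refine hts.trans fun z hz => ?_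
      rw [B1, mem_ball_zero_iff]
      have : ‖z‖ ≤ ‖z - z0‖ + ‖z0‖ := by simpa using norm_add_le (z - z0) z0
      have h6 : ‖z - z0‖ ≤ C * R := by simpa [dist_eq_norm] using hz
      linarith
  have key := hcl _ htest
  have e : ∀ z, c z * dy (fun z => Phi F (tc t (z - z0))) z -
      t * c z * dx (fun z => Phi F (tc t (z - z0))) z =
      (c z * (kk t ρ (z - z0) : ℂ) - c z * (kk t ρ' (z - z0) : ℂ)) * ((starRingEnd ℂ) t - t) := by
    intro z
    have h7 := Phi_dd hFd hs0 h0 ht z0 z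
    rw [hderiv] at h7
    rw [kk, kk]
    push_cast at h7 ⊢
    linear_combination c z * h7
  simp_rw [e] at key
  rw [integral_mul_const, mul_eq_zero, integral_sub (kc_int ht hc hρ z0) (kc_int ht hc hρ' z0),
    sub_eq_zero] at key
  rcases key with key | key
  · exact key
  · exfalso
    have h8 : ((starRingEnd ℂ) t - t).im = 0 := by rw [key]; simp
    have h9 : 0 < t.im := ht
    simp at h8
    linarith

theorem Hr_deriv {t : ℂ} (ht : t ∈ UH) {c : ℂ → ℂ} (hc : MemLp c 2 (volume.restrict B1))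
    (hcl : WClosed c (fun z => t * c z)) {C : ℝ} (hC : ∀ z, ‖z‖ ≤ C * ‖tc t z‖) (hC0 : 0 < C)
    {ρ : ℝ} (hρ : 0 < ρ) {z0 : ℂ} (h : C * ρ < 1 - ‖z0‖) :
    ∃ A : ℂ →L[ℝ] ℂ, HasFDerivAt (Hr c t ρ) A z0 ∧ A Complex.I = t * A 1 := by
  have hB : MeasurableSet B1 := measurableSet_ball
  set f : ℂ → ℂ := B1.indicator c with hf
  have hfi : Integrable f := (integrable_indicator_iff hB).2 (c_int hc)
  set g : ℂ → ℂ := fun u => (kk t ρ u : ℂ) with hg
  have hgs : ContDiff ℝ (⊤ : ℕ∞) g := Complex.ofRealCLM.contDiff.comp (kk_contDiff t ρ)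
  have hgc : HasCompactSupport g := (kk_compact ht hρ).comp_left (g := fun x : ℝ => (x : ℂ)) (by simp)
  have hgs1 : ContDiff ℝ 1 g := hgs.of_le (by exact_mod_cast le_top)
  have hconv : ∀ z, convolution f g (ContinuousLinearMap.mul ℝ ℂ) volume z = Hr c t ρ z := by
    intro z
    rw [convolution_def, Hr, ← integral_indicator hB]
    congr 1
    funext s
    simp only [hf, hg, ContinuousLinearMap.mul_apply', indicator]
    split_ifs
    · rw [kk_sub_comm]
    · simp
  have hfun : convolution f g (ContinuousLinearMap.mul ℝ ℂ) volume = Hr c t ρ := funext hconv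
  have hd := hgc.hasFDerivAt_convolution_right (ContinuousLinearMap.mul ℝ ℂ)
    hfi.locallyIntegrable hgs1 z0
  rw [hfun] at hd
  have hval : ∀ v : ℂ, (convolution f (fderiv ℝ g) ((ContinuousLinearMap.mul ℝ ℂ).precompR ℂ)
      volume z0) v = ∫ s in B1, c s * fderiv ℝ g (z0 - s) v := by
    intro v
    rw [convolution_precompR_apply (ContinuousLinearMap.mul ℝ ℂ) hfi.locallyIntegrable
      (hgc.fderiv ℝ) (hgs.continuous_fderiv (by simp)) z0 v, convolution_def,
      ← integral_indicator hB]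
    congr 1
    funext s
    simp only [hf, ContinuousLinearMap.mul_apply', indicator]
    split_ifs <;> simp
  refine ⟨_, hd, ?_⟩
  rw [hval, hval, ← integral_const_mul, ← sub_eq_zero]
  have hint : ∀ v : ℂ, Integrable (fun s => c s * fderiv ℝ g (z0 - s) v)
      (volume.restrict B1) := by
    intro v
    apply ck_int hc
    · exact ((hgs.continuous_fderiv (by simp)).clm_apply continuous_const).comp (by fun_prop)
    · have h1 : HasCompactSupport (fun u => fderiv ℝ g u v) :=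
        (hgc.fderiv ℝ).comp_left (g := fun L : ℂ →L[ℝ] ℂ => L v) (by simp)
      exact h1.comp_homeomorph (Homeomorph.subLeft z0)
  have hint2 : Integrable (fun s => t * (c s * fderiv ℝ g (z0 - s) 1))
      (volume.restrict B1) := (hint 1).const_mul t
  rw [← integral_sub (hint _) hint2]
  -- the test function
  set a : ℂ → ℂ := fun s => g (z0 - s) with ha
  have hout : ∀ s, C * ρ < ‖s - z0‖ → a s = 0 := by
    intro s hs
    simp only [ha, hg]
    rw [kk_zero' hC hC0 hρ]
    · simp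
    · rwa [norm_sub_rev]
  have hsub : a.support ⊆ closedBall z0 (C * ρ) := by
    intro z hz
    by_contra hz2
    apply hz
    apply hout
    simpa [dist_eq_norm] using hz2
  have hts : tsupport a ⊆ closedBall z0 (C * ρ) := closure_minimal hsub isClosed_closedBall
  have htest : PTest a := by
    refine ⟨hgs.comp (by fun_prop), ?_, ?_⟩
    · exact (isCompact_closedBall z0 (C * ρ)).of_isClosed_subset (isClosed_tsupport _) hts
    · refine hts.trans fun z hz => ?_
      rw [B1, mem_ball_zero_iff]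
      have : ‖z‖ ≤ ‖z - z0‖ + ‖z0‖ := by simpa using norm_add_le (z - z0) z0
      have h6 : ‖z - z0‖ ≤ C * ρ := by simpa [dist_eq_norm] using hz
      linarith
  have hfa : ∀ s v, fderiv ℝ a s v = - fderiv ℝ g (z0 - s) v := by
    intro s v
    have h1 : HasFDerivAt (fun s : ℂ => z0 - s) (-(ContinuousLinearMap.id ℝ ℂ)) s := by
      simpa using (hasFDerivAt_id s).const_sub z0
    have h2 : HasFDerivAt g (fderiv ℝ g (z0 - s)) (z0 - s) :=
      (hgs.differentiable (by simp) _).hasFDerivAt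
    have h3 : HasFDerivAt a ((fderiv ℝ g (z0 - s)).comp (-(ContinuousLinearMap.id ℝ ℂ))) s :=
      HasFDerivAt.comp (f := fun s : ℂ => z0 - s) s h2 h1
    rw [h3.fderiv]
    simp
  have key := hcl a htest
  have e : ∀ s, c s * dy a s - t * c s * dx a s =
      -(c s * fderiv ℝ g (z0 - s) Complex.I - t * (c s * fderiv ℝ g (z0 - s) 1)) := by
    intro s
    rw [dy, dx, hfa, hfa]
    ring
  simp_rw [e] at key
  rw [integral_neg, neg_eq_zero] at key
  exact key

/-! ## Convergence of the regularisations -/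

theorem Hr_tendsto {t : ℂ} (ht : t ∈ UH) {c : ℂ → ℂ} (hc : MemLp c 2 (volume.restrict B1)) :
    ∀ᵐ x, x ∈ B1 → Tendsto (fun ρ => Hr c t ρ x) (𝓝[>] 0) (𝓝 ((∫ z, kk t 1 z : ℝ) * c x)) := by
  obtain ⟨C, hC0, hC⟩ := tc_bound ht
  obtain ⟨M, hM0, hM⟩ := kk_bound t ht
  have hB : MeasurableSet B1 := measurableSet_ball
  set f : ℂ → ℂ := B1.indicator c with hf
  have hfi : Integrable f := (integrable_indicator_iff hB).2 (c_int hc)
  have hL := IsUnifLocDoublingMeasure.ae_tendsto_average_norm_sub (μ := (volume : Measure ℂ))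
    hfi.locallyIntegrable 0
  filter_upwards [hL] with x hx hxB
  have hfx : f x = c x := by simp [hf, hxB]
  have hδ : Tendsto (fun ρ : ℝ => C * ρ) (𝓝[>] 0) (𝓝[>] 0) := by
    apply tendsto_nhdsWithin_of_tendsto_nhds_of_eventually_within
    · have : Tendsto (fun ρ : ℝ => C * ρ) (𝓝 0) (𝓝 (C * 0)) :=
        (continuous_const.mul continuous_id).tendsto 0
      rw [mul_zero] at this
      exact this.mono_left nhdsWithin_le_nhds
    · filter_upwards [self_mem_nhdsWithin] with ρ hρ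
      exact mul_pos hC0 hρ
  have h1 := hx (fun _ : ℝ => x) (fun ρ => C * ρ) hδ (by
    filter_upwards with ρ
    simp)
  rw [tendsto_iff_norm_sub_tendsto_zero]
  have hlim : Tendsto (fun ρ => (M * (Real.pi * C ^ 2)) *
      ⨍ y in closedBall x (C * ρ), ‖f y - f x‖) (𝓝[>] 0) (𝓝 0) := by
    have := h1.const_mul (M * (Real.pi * C ^ 2))
    rwa [mul_zero] at this
  refine squeeze_zero' (Eventually.of_forall fun _ => norm_nonneg _) ?_ hlim
  filter_upwards [self_mem_nhdsWithin] with ρ hρ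
  have hρ : 0 < ρ := hρ
  have hk : Continuous (fun s => (kk t ρ (s - x) : ℂ)) :=
    Complex.continuous_ofReal.comp ((kk_contDiff t ρ).continuous.comp (by fun_prop))
  have hkc : HasCompactSupport (fun s => (kk t ρ (s - x) : ℂ)) := by
    have h := kk_compact ht hρ
    have h2 : HasCompactSupport (fun s => kk t ρ (s - x)) :=
      h.comp_homeomorph (Homeomorph.subRight x)
    exact h2.comp_left (g := fun x : ℝ => (x : ℂ)) (by simp)
  have hi1 : Integrable (fun s => f s * (kk t ρ (s - x) : ℂ)) := by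
    obtain ⟨M', hM'⟩ := hk.bounded_above_of_compact_support hkc
    exact hfi.mul_bdd (c := M') hk.aestronglyMeasurable (Eventually.of_forall hM')
  have hi2 : Integrable (fun s => f x * (kk t ρ (s - x) : ℂ)) :=
    (hk.integrable_of_hasCompactSupport hkc).const_mul _
  have e1 : Hr c t ρ x = ∫ s, f s * (kk t ρ (s - x) : ℂ) := by
    rw [Hr, ← integral_indicator hB]
    congr 1
    funext s
    simp only [hf, indicator]
    split_ifs <;> simp
  have e2 : ((∫ z, kk t 1 z : ℝ) : ℂ) * c x = ∫ s, f x * (kk t ρ (s - x) : ℂ) := by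
    have e0 : ∫ s, (kk t ρ s : ℂ) = ((∫ s, kk t ρ s : ℝ) : ℂ) := integral_ofReal
    rw [integral_const_mul, hfx, mul_comm, integral_sub_right_eq_self
      (fun s => (kk t ρ s : ℂ)) x, e0, kk_integral t hρ]
  rw [e1, e2, ← integral_sub hi1 hi2]
  have hsupp : ∀ s, s ∉ closedBall x (C * ρ) → kk t ρ (s - x) = 0 := by
    intro s hs
    apply kk_zero' hC hC0 hρ
    simpa [dist_eq_norm] using hs
  have hi3 : Integrable (fun s => (ρ ^ 2)⁻¹ * M * ‖f s - f x‖)
      (volume.restrict (closedBall x (C * ρ))) := by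
    apply Integrable.const_mul
    apply Integrable.norm
    exact (hfi.restrict).sub (integrable_const_iff.2 (Or.inr ⟨by
      rw [Measure.restrict_apply_univ]; exact measure_closedBall_lt_top⟩))
  calc ‖∫ s, (f s * (kk t ρ (s - x) : ℂ) - f x * (kk t ρ (s - x) : ℂ))‖
      = ‖∫ s in closedBall x (C * ρ), (f s * (kk t ρ (s - x) : ℂ) - f x * (kk t ρ (s - x) : ℂ))‖ := by
        rw [setIntegral_eq_integral_of_forall_compl_eq_zero]
        intro s hs
        rw [hsupp s hs]; simp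
    _ ≤ ∫ s in closedBall x (C * ρ), (ρ ^ 2)⁻¹ * M * ‖f s - f x‖ := by
        apply norm_integral_le_of_norm_le hi3
        filter_upwards with s
        rw [← sub_mul, norm_mul, Complex.norm_real, Real.norm_of_nonneg (kk_nonneg t ρ _), mul_comm]
        exact mul_le_mul_of_nonneg_right (hM ρ hρ _) (norm_nonneg _)
    _ = M * (Real.pi * C ^ 2) * ⨍ y in closedBall x (C * ρ), ‖f y - f x‖ := by
        rw [integral_const_mul, setAverage_eq, Measure.real, Complex.volume_closedBall]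
        simp only [smul_eq_mul, ENNReal.toReal_mul, ENNReal.toReal_pow, ENNReal.coe_toReal,
          NNReal.coe_real_pi, ENNReal.toReal_ofReal (mul_pos hC0 hρ).le]
        have := Real.pi_pos
        field_simp

theorem st_WEYL : ST_WEYL := by
  intro t c ht hc hcl
  obtain ⟨C, hC0, hC⟩ := tc_bound ht
  set m : ℝ := ∫ z, kk t 1 z with hm
  have hmpos : 0 < m := kk_integral_pos ht
  set rr : ℂ → ℝ := fun z => (1 - ‖z‖) / (2 * C) with hrr
  have hrpos : ∀ z ∈ B1, 0 < rr z := by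
    intro z hz
    have : ‖z‖ < 1 := by simpa [B1] using hz
    simp only [hrr]
    apply div_pos <;> linarith
  have hrC : ∀ z ∈ B1, C * rr z < 1 - ‖z‖ := by
    intro z hz
    have : ‖z‖ < 1 := by simpa [B1] using hz
    simp only [hrr]
    have : C * ((1 - ‖z‖) / (2 * C)) = (1 - ‖z‖) / 2 := by field_simp
    rw [this]; linarith
  set H : ℂ → ℂ := fun z => Hr c t (rr z) z with hH
  have hHd : ∀ z ∈ B1, ∃ A : ℂ →L[ℝ] ℂ, HasFDerivAt H A z ∧ A Complex.I = t * A 1 := by
    intro z hz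
    obtain ⟨A, hA, hA'⟩ := Hr_deriv ht hc hcl hC hC0 (hrpos z hz) (hrC z hz)
    refine ⟨A, ?_, hA'⟩
    apply hA.congr_of_eventuallyEq
    have h1 : ∀ᶠ y in 𝓝 z, y ∈ B1 := isOpen_ball.mem_nhds hz
    have h2 : ∀ᶠ y in 𝓝 z, C * rr z < 1 - ‖y‖ := by
      have : Continuous fun y : ℂ => 1 - ‖y‖ := by fun_prop
      exact this.continuousAt.eventually_const_lt (hrC z hz)
    filter_upwards [h1, h2] with y hy1 hy2
    exact Hr_indep ht hc hcl hC hC0 (hrpos y hy1) (hrpos z hz) (hrC y hy1) hy2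
  refine ⟨fun w => (m : ℂ)⁻¹ * H (tcInv t w), ?_, ?_⟩
  · rintro w ⟨z, hz, rfl⟩
    apply DifferentiableAt.differentiableWithinAt
    obtain ⟨A, hA, hA'⟩ := hHd z hz
    have hAz : ∀ v, A v = tc t v * A 1 := by
      intro v
      have : v = v.re • (1 : ℂ) + v.im • Complex.I := by
        apply Complex.ext <;> simp
      conv_lhs => rw [this, map_add, map_smul, map_smul, hA']
      simp only [tc, Complex.real_smul]
      ring
    have h1 : HasFDerivAt (tcInv t) (tcInvL t) (tc t z) := by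
      have := (tcInvL t).hasFDerivAt (x := tc t z)
      have e : ⇑(tcInvL t) = tcInv t := funext (tcInvL_apply t)
      rwa [e] at this
    have hA2 : HasFDerivAt H A (tcInv t (tc t z)) := by rwa [tcInv_tc ht]
    have h2 : HasFDerivAt (fun w => H (tcInv t w)) (A.comp (tcInvL t)) (tc t z) :=
      HasFDerivAt.comp (f := tcInv t) (tc t z) hA2 h1
    have h3 : HasFDerivAt (fun w => H (tcInv t w))
        (ContinuousLinearMap.smulRight (1 : ℂ →L[ℂ] ℂ) (A 1)) (tc t z) := by
      apply hasFDerivAt_of_restrictScalars ℝ h2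
      ext v
      · simp only [ContinuousLinearMap.coe_restrictScalars', ContinuousLinearMap.smulRight_apply,
          one_apply_eq_self, smul_eq_mul, ContinuousLinearMap.comp_apply, tcInvL_apply]
        rw [hAz (tcInv t v), tc_tcInv ht]
    exact (h3.differentiableAt).const_mul _
  · have h1 := Hr_tendsto ht hc
    rw [Filter.EventuallyEq, ae_restrict_iff' (show MeasurableSet B1 from measurableSet_ball)]
    filter_upwards [h1] with x hx hxB
    have h2 := hx hxB
    have h3 : Tendsto (fun ρ => Hr c t ρ x) (𝓝[>] 0) (𝓝 (H x)) := by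
      apply tendsto_const_nhds.congr'
      have h4 : ∀ᶠ ρ : ℝ in 𝓝[>] 0, C * ρ < 1 - ‖x‖ := by
        apply eventually_nhdsWithin_of_eventually_nhds
        have : Continuous fun ρ : ℝ => C * ρ := by fun_prop
        apply this.continuousAt.eventually_lt_const
        have : ‖x‖ < 1 := by simpa [B1] using hxB
        linarith
      filter_upwards [h4, self_mem_nhdsWithin] with ρ hρ1 hρ2
      exact Hr_indep ht hc hcl hC hC0 (hrpos x hxB) hρ2 (hrC x hxB) hρ1
    have h5 := tendsto_nhds_unique h3 h2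
    have hm0 : (m : ℂ) ≠ 0 := by exact_mod_cast hmpos.ne'
    rw [tcInv_tc ht, h5, ← mul_assoc, inv_mul_cancel₀ hm0, one_mul]

end Pool.Agent.Helper71.Dil
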